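import Pool.Agent.Helper20_RCM.Tr
import Pool.Agent.Helper64_RB3.Asy

/-!
# Squad RCM, row TRA: partition matroids, asymptotic bound (helper20)
-/

set_option autoImplicit false

namespace Pool.Agent.RCM.H20

open Set

universe u

theorem tra : TraStmt.{u} := by
  intro ε hε
  obtain ⟨z0, hz0⟩ := Helper64RB3.crit_asymp hε
  refine ⟨z0, fun E K _ _ M N κ s R _ r hcol hpart t P X T z hM hst hu ht => ?_⟩
  show (if z < z0 then 0 else ⌊(1 / 2 - ε) * (z : ℝ) ^ 2⌋₊) ≤ _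
  split_ifs with hz
  · exact Nat.zero_le _
  · obtain ⟨n, hn⟩ : ∃ n, n = ⌊(1 / 2 - ε) * (z : ℝ) ^ 2⌋₊ := ⟨_, rfl⟩
    rw [← hn]
    rcases Nat.eq_zero_or_pos n with h0 | hpos
    · rw [h0]
      exact Nat.zero_le _
    · have h1 : (n : ℝ) ≤ (1 / 2 - ε) * (z : ℝ) ^ 2 := by
        have h2 : ⌊(1 / 2 - ε) * (z : ℝ) ^ 2⌋₊ ≠ 0 := by omega
        have h3 := Nat.floor_le (Nat.pos_of_floor_pos (Nat.pos_of_ne_zero h2)).le
        rw [hn]
        exact h3
      have h4 : (((n - 1 : ℕ) : ℝ) + 1) ≤ (1 / 2 - ε) * (z : ℝ) ^ 2 := by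
        have h5 : ((n - 1 : ℕ) : ℝ) + 1 = n := by
          have h6 : n - 1 + 1 = n := by omega
          exact_mod_cast h6
        rw [h5]
        exact h1
      have h7 := crt hcol hpart hM hst hu ht (n - 1) (hz0 z (by omega) (n - 1) h4)
      omega

end Pool.Agent.RCM.H20
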