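import Pool.Agent.RCM.Stmts2
import Pool.Agent.Helper64_RB3.Main

/-!
# Squad RCM: from helper64's potential (partition matroids) to the closures of RCM (helper20)

`crt`: if `M` is the partition matroid of `r` and `Crit z B`, `t + |P| + z ≤ s`, then the `M`-closure moves
more than `B` elements.
-/

set_option autoImplicit false

namespace Pool.Agent.RCM.H20

open Set

universe u

variable {E : Type u} {K : Type} {R : Type u}

section

variable {M N : Matroid E} {κ : E → K} {s t : ℕ} {P : Set E} {X : Set K} {T : Set E} {r : E → R}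

open Classical in
/-- a state of helper64's system is a state of the closure -/
theorem reach_rc [Fintype E] [Fintype K] {S : K → Finset E} {P' : Finset R} {K' : Finset K}
    (hpart : ∀ I, M.Indep I ↔ InjOn r I) (hP : InjOn r P) (hP' : ∀ p ∈ P, r p ∈ P')
    (hK' : ∀ c ∈ K', c ∉ X) (hS : ∀ i, ∀ x ∈ S i, x ∈ N.E) {T0 T1 : Finset E}
    (hst : Helper64RB3.State N κ r S t P' K' T0)
    (h : Helper64RB3.Reach N κ r S P' K' T0 T1) :
    Rc M N κ P X (T0 : Set E) (T1 : Set E) := by
  induction h with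
  | refl => exact Relation.ReflTransGen.refl
  | @tail A B hA hm ih =>
    refine Relation.ReflTransGen.tail ih ?_
    have hA' := Helper64RB3.reach_state hst hA
    obtain ⟨x, y, hxS, hxK, hxc, hxr, hxP, hy, hind, rfl⟩ := hm
    have hxA : x ∉ A := Helper64RB3.notMem_of_col hxc
    have hxP2 : x ∉ P := fun h => hxP (hP' x h)
    have hAP : InjOn r ((A : Set E) ∪ P) := by
      intro a ha b hb hab
      rcases ha with ha | ha
      · rcases hb with hb | hb
        · exact hA'.good.rowinj ha hb hab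
        · exact absurd (hab ▸ hP' b hb) (hA'.avP a ha)
      · rcases hb with hb | hb
        · exact absurd (hab.symm ▸ hP' a ha) (hA'.avP b hb)
        · exact hP ha hb hab
    have hins : InjOn r (insert x ((A : Set E) ∪ P)) := by
      rw [injOn_insert (fun h => h.elim (fun h => hxA h) hxP2)]
      refine ⟨hAP, ?_⟩
      rintro ⟨a, ha | ha, hax⟩
      · exact hxr (Finset.mem_image.2 ⟨a, ha, hax⟩)
      · exact hxP (hax ▸ hP' a ha)
    refine ⟨x, y, hy, ?_, hK' _ hxK, ?_, ?_, ?_⟩
    · rintro ⟨a, ha, hax⟩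
      exact hxc (Finset.mem_image.2 ⟨a, ha, hax⟩)
    · have h1 := ((hpart _).2 hAP).insert_indep_iff_of_notMem
        (e := x) (fun h => h.elim (fun h => hxA h) hxP2)
      exact (h1.1 ((hpart _).2 hins)).2
    · have h2 : ((A.erase y : Finset E) : Set E) = (A : Set E) \ {y} := Finset.coe_erase y A
      rw [Finset.coe_insert, h2] at hind
      have h3 : N.Indep ((A : Set E) \ {y}) := hA'.good.ind.subset diff_subset
      have h1 := h3.insert_indep_iff_of_notMem (e := x) (fun h => hxA h.1)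
      exact (h1.1 hind).2
    · rw [Finset.coe_insert, Finset.coe_erase]

end

open Classical in
/-- the transfer -/
theorem crt [Finite E] [Finite K] {M N : Matroid E} {κ : E → K} {s : ℕ} {r : E → R}
    (hcol : Col M N κ s) (hpart : ∀ I, M.Indep I ↔ InjOn r I) {t : ℕ} {P : Set E} {X : Set K}
    {T : Set E} {z : ℕ} (hM : Mx M N κ t) (hst : St M N κ P X t T) (hu : (Un κ X T).Nonempty)
    (ht : t + P.ncard + z ≤ s) (B : ℕ) (hB : Helper64RB3.Crit z B) :
    B < (T \ Sta M N κ P X T).ncard := by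
  have iE : Fintype E := Fintype.ofFinite E
  have iK : Fintype K := Fintype.ofFinite K
  obtain ⟨S, hS⟩ : ∃ S : K → Finset E, ∀ c x, x ∈ S c ↔ κ x = c :=
    ⟨fun c => Finset.univ.filter fun x => κ x = c, fun c x => by simp⟩
  have hSc : ∀ c, (S c : Set E) = κ ⁻¹' {c} := by
    intro c
    ext x
    rw [Finset.mem_coe, hS]
    rfl
  obtain ⟨P', hP'⟩ : ∃ P' : Finset R, P' = P.toFinset.image r := ⟨_, rfl⟩
  obtain ⟨K', hK'⟩ : ∃ K' : Finset K, ∀ c, c ∈ K' ↔ c ∉ X :=
    ⟨Finset.univ.filter fun c => c ∉ X, fun c => by simp⟩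
  obtain ⟨T', hT'⟩ : ∃ T' : Finset E, (T' : Set E) = T := ⟨T.toFinset, by simp⟩
  have hTm : ∀ y, y ∈ T' ↔ y ∈ T := fun y => by rw [← hT', Finset.mem_coe]
  have hTP : InjOn r (T ∪ P) := (hpart _).1 hst.fr
  have hH : Helper64RB3.Hyp N κ r S t := by
    refine ⟨fun i x hx => (hS i x).1 hx, fun i => ?_, fun i => ?_, fun T1 hT1 => ?_⟩
    · rw [hSc]
      exact (hpart _).1 (hcol.indM i)
    · rw [hSc]
      exact hcol.indN i
    · have h1 := hM T1 ⟨(hpart _).2 hT1.rowinj, hT1.ind, hT1.colinj⟩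
      rwa [ncard_coe_finset] at h1
  have hP'm : ∀ p ∈ P, r p ∈ P' := by
    intro p hp
    rw [hP']
    exact Finset.mem_image_of_mem r (by simpa using hp)
  have hstate : Helper64RB3.State N κ r S t P' K' T' := by
    refine ⟨⟨fun y _ => (hS _ y).2 rfl, ?_, ?_, ?_⟩, fun y hy => ?_, fun y hy => ?_, ?_⟩
    · rw [hT']
      exact hst.ri.inj
    · rw [hT']
      exact hTP.mono subset_union_left
    · rw [hT']
      exact hst.ri.indN
    · rw [hP']
      intro h
      obtain ⟨p, hp, hpy⟩ := Finset.mem_image.1 h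
      have hp' : p ∈ P := by simpa using hp
      have hy' := (hTm y).1 hy
      have h1 := hTP (Or.inr hp') (Or.inl hy') hpy
      rw [h1] at hp'
      exact (Set.disjoint_left.1 hst.dj) hy' hp'
    · exact (hK' _).2 (hst.col y ((hTm y).1 hy))
    · rw [← ncard_coe_finset, hT']
      exact hst.card
  -- the sizes of the colours
  have hPc : P'.card ≤ P.ncard := by
    rw [hP', ← ncard_coe_finset, Finset.coe_image, coe_toFinset]
    exact ncard_image_le (toFinite P)
  have hz : ∀ c, t + z ≤ Helper64RB3.sz r S P' c := by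
    intro c
    have h1 := Helper64RB3.card_filter_row hH c P'
    have h2 : (S c).card = ((S c).filter fun x => r x ∈ P').card +
        ((S c).filter fun x => r x ∉ P').card :=
      (Finset.card_filter_add_card_filter_not (s := S c) (fun x => r x ∈ P')).symm
    have h3 : s ≤ (S c).card := by
      rw [← ncard_coe_finset, hSc]
      exact hcol.card c
    unfold Helper64RB3.sz
    omega
  -- the number of the colours
  have hKt : t + 1 ≤ K'.card := by
    obtain ⟨c, hc1, hc2⟩ := hu
    have h1 : insert c (T'.image κ) ⊆ K' := by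
      intro c' hc'
      rcases Finset.mem_insert.1 hc' with rfl | h
      · exact (hK' _).2 hc1
      · obtain ⟨y, hy, rfl⟩ := Finset.mem_image.1 h
        exact hstate.inK y hy
    have h2 := Finset.card_le_card h1
    have h3 : c ∉ T'.image κ := by
      intro h
      obtain ⟨y, hy, hyc⟩ := Finset.mem_image.1 h
      exact hc2 ⟨y, (hTm y).1 hy, hyc⟩
    rw [Finset.card_insert_of_notMem h3, Finset.card_image_of_injOn hstate.good.colinj,
      hstate.card] at h2
    exact h2
  obtain ⟨J, hJ⟩ : ∃ J, K'.card = t + 1 + J := ⟨K'.card - (t + 1), by omega⟩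
  obtain ⟨K2, hK2, hK2c, hle⟩ := Helper64RB3.free_steps hH z hz J K' hstate hJ
  -- the live elements are moved
  have hLv : (Helper64RB3.Lv N κ r S P' K' T').card ≤ (T \ Sta M N κ P X T).ncard := by
    rw [← ncard_coe_finset]
    refine ncard_le_ncard ?_ (toFinite _)
    intro y hy
    have hyT : y ∈ T' := Helper64RB3.Lv_subset (Finset.mem_coe.1 hy)
    refine ⟨(hTm y).1 hyT, fun hSt => ?_⟩
    have h1 : y ∉ Helper64RB3.Fx N κ r S P' K' T' :=
      (Finset.mem_sdiff.1 (Finset.mem_coe.1 hy)).2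
    apply h1
    rw [Helper64RB3.mem_Fx]
    intro T1 hR
    have h2 := reach_rc (M := M) (P := P) (X := X) hpart (hTP.mono subset_union_right) hP'm
      (fun c hc => (hK' c).1 hc) (fun i x hx => (hH.hN i).subset_ground (Finset.mem_coe.2 hx))
      hstate hR
    rw [hT'] at h2
    exact Finset.mem_coe.1 (hSt _ h2)
  refine lt_of_lt_of_le ?_ (le_trans (le_trans (Nat.le_add_left _ _) hle) hLv)
  -- the potential
  obtain ⟨h, hh⟩ : ∃ h, h = (Helper64RB3.Lv N κ r S P' K2 T').card := ⟨_, rfl⟩
  rw [← hh]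
  by_contra hhB
  rw [not_lt] at hhB
  obtain ⟨c, c', hc0, hcc, hcB, hprod⟩ := hB
  have hpot := Helper64RB3.pot hH hc0 hcc hcB (by omega : t < K2.card) _ P' T' hK2 rfl (by omega)
  have hcPl := Helper64RB3.card_Pl_add hK2
  have hcFx := Helper64RB3.card_Fx_Lv hK2
  have hc' : 0 ≤ c' := hc0.trans hcc
  have hsum : ∑ i ∈ Helper64RB3.Pl N κ r S P' K2 T',
        Helper64RB3.ph c' (Helper64RB3.sz r S P' i - t) ≤
      ((h : ℝ) + 1) * Helper64RB3.ph c' z := by
    have h1 : ∑ i ∈ Helper64RB3.Pl N κ r S P' K2 T',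
          Helper64RB3.ph c' (Helper64RB3.sz r S P' i - t) ≤
        ∑ i ∈ Helper64RB3.Pl N κ r S P' K2 T', Helper64RB3.ph c' z := by
      apply Finset.sum_le_sum
      intro i _
      apply Helper64RB3.ph_antitone hc'
      have := hz i
      omega
    rw [Finset.sum_const, nsmul_eq_mul] at h1
    have h2 : (Helper64RB3.Pl N κ r S P' K2 T').card = h + 1 := by omega
    rw [h2] at h1
    push_cast at h1
    exact h1
  rw [← hh] at hpot
  have hone : (1 : ℝ) ≤ 1 + c := by linarith
  have h1 : (1 : ℝ) ≤ (1 + c) ^ h * (((h : ℝ) + 1) * Helper64RB3.ph c' z) :=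
    hpot.trans (mul_le_mul_of_nonneg_left hsum (by positivity))
  have h2 := Helper64RB3.ph_inv hc' z
  have h3 := Helper64RB3.ph_pos hc' z
  have h4 : (1 + c) ^ h * ((h : ℝ) + 1) ≤ ((B : ℝ) + 1) * (1 + c) ^ B := by
    have h5 : (1 + c) ^ h ≤ (1 + c) ^ B := pow_le_pow_right₀ hone hhB
    have h6 : (h : ℝ) + 1 ≤ (B : ℝ) + 1 := by
      have : (h : ℝ) ≤ B := by exact_mod_cast hhB
      linarith
    calc (1 + c) ^ h * ((h : ℝ) + 1) ≤ (1 + c) ^ B * ((B : ℝ) + 1) :=
        mul_le_mul h5 h6 (by positivity) (by positivity)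
      _ = _ := by ring
  have h5 : (1 + c) ^ h * ((h : ℝ) + 1) * Helper64RB3.ph c' z < 1 := by
    calc (1 + c) ^ h * ((h : ℝ) + 1) * Helper64RB3.ph c' z ≤
        ((B : ℝ) + 1) * (1 + c) ^ B * Helper64RB3.ph c' z :=
        mul_le_mul_of_nonneg_right h4 h3.le
      _ < (∏ j ∈ Finset.range z, (1 + c' * ((j : ℝ) + 1))) * Helper64RB3.ph c' z :=
        mul_lt_mul_of_pos_right hprod h3
      _ = 1 := h2
  nlinarith

end Pool.Agent.RCM.H20
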